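import Pool.Agent.H44.AR.BasicA

/-!
# All reducts, all arities: passing to a set of types which cannot be made smaller
-/

set_option autoImplicit false
set_option linter.unusedVariables false

namespace Pool.Agent.H68.AR

open Pool.Agent.H68.BP Pool.Agent.H58.SF Pool.Agent.H53.GC Pool.Agent.H53.NR Pool.Agent.H53.GR
open Pool.Agent.H57.AR Pool.Agent.H44.AR
open Pool.Agent.H57.SO (Pal Col vt Sb FBl)
open Pool.Agent.H57.EQ (Cx)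
open Function

theorem pf_STR (hSUB : T_SUB) (hPRE : T_PRE) : T_STR := by
  intro σ ρ V _ 𝔸 𝔹 M hU h hs
  have hfin : Finite (T1 ρ) := inferInstance
  have hex : ∃ k : ℕ, ∃ (S : Set (T1 ρ)) (m : (k : ℕ) → OT ρ (Fin k) → OT ρ (Fin k)),
      S ⊆ Set.range (ty 𝔹) ∧ UM 𝔹 𝔹 𝔸 𝔸 m ∧ (∀ x, tm m (ty 𝔹 x) ∈ S) ∧ S.ncard = k :=
    ⟨_, Set.range (ty 𝔹), fun _ t => t, subset_rfl, UM.refl, fun x => ⟨x, rfl⟩, rfl⟩
  classical
  obtain ⟨S, m, hSr, hm, hmS, hk⟩ := Nat.find_spec hex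
  have hmin : ∀ (S' : Set (T1 ρ)) (m' : (k : ℕ) → OT ρ (Fin k) → OT ρ (Fin k)),
      S' ⊆ Set.range (ty 𝔹) → UM 𝔹 𝔹 𝔸 𝔸 m' → (∀ x, tm m' (ty 𝔹 x) ∈ S') →
      S.ncard ≤ S'.ncard := by
    intro S' m' h1 h2 h3
    rw [hk]
    exact Nat.find_min' hex ⟨S', m', h1, h2, h3, rfl⟩
  have hne : ∃ x, ty 𝔹 x ∈ S := by
    obtain ⟨x⟩ := hU.ne
    obtain ⟨y, hy⟩ := hm.tm_mem x
    exact ⟨y, by rw [hy]; exact hmS x⟩
  have hU' := hSUB ρ V 𝔹 M hU S hne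
  set 𝔹' : Str ρ {v : V // ty 𝔹 v ∈ S} := pull 𝔹 (fun v : {v : V // ty 𝔹 v ∈ S} => (v : V))
    with h𝔹'
  let 𝔸' : Str σ {v : V // ty 𝔹 v ∈ S} := pull 𝔸 (fun v : {v : V // ty 𝔹 v ∈ S} => (v : V))
  have hty : ∀ v : {v : V // ty 𝔹 v ∈ S}, ty 𝔹' v = ty 𝔹 v.1 := fun v => rfl
  have hum1 : UM 𝔹 𝔹' 𝔸 𝔸' m := by
    intro W _ G
    obtain ⟨ψ, h1, h2⟩ := hm W G
    have h3 : ∀ w, ty 𝔹 (ψ w) ∈ S := by
      intro w
      rw [hm.ty_eq h2 w]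
      exact hmS _
    exact ⟨fun w => ⟨ψ w, h3 w⟩, fun l z hz => h1 l z hz, fun k z => h2 k z⟩
  have hum2 : UM 𝔹' 𝔹 𝔸' 𝔸 (fun _ t => t) := by
    intro W _ G
    exact ⟨fun w => (G w).1, fun l z hz => hz, fun k z => rfl⟩
  obtain ⟨h', hp, ht, he⟩ := hPRE σ ρ ρ V {v : V // ty 𝔹 v ∈ S} 𝔸 𝔹 𝔸' 𝔹' h m (fun _ t => t)
    hU'.ne (fun l => (hU'.ar l).1) hs.pm hs.tid hs.exact hum1 hum2
  refine ⟨{v : V // ty 𝔹 v ∈ S}, inferInstance, 𝔸', 𝔹', h', m, fun _ t => t, hU', ⟨?_, hp, ht, he⟩,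
    hum1, hum2, ?_⟩
  · intro l x y hx hxy
    refine hs.blind l (fun a => (x a).1) (fun a => (y a).1) hx ⟨fun a => hxy.typ a, ?_, hxy.rel⟩
    intro a b ha hb
    rw [← Subtype.ext_iff, ← Subtype.ext_iff]
    exact hxy.eq a b ha hb
  · intro m2 hm2 x y hxy
    have h1 := (hum1.comp hm2).comp hum2
    have hS2 : ∀ s ∈ S, tm m2 s ∈ S := by
      intro s hs'
      obtain ⟨v, rfl⟩ := hSr hs'
      obtain ⟨w, hw⟩ := hm2.tm_mem ⟨v, hs'⟩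
      have h2 : tm m2 (ty 𝔹 v) = ty 𝔹 w.1 := hw.symm
      rw [h2]
      exact w.2
    have h2 : ∀ x, tm (fun k t => (fun _ t => t : (k : ℕ) → OT ρ (Fin k) → OT ρ (Fin k)) k
        ((fun k t => m2 k (m k t)) k t)) (ty 𝔹 x) ∈ tm m2 '' S := by
      intro x
      have h3 := hum1.tm_comp hm2 x
      refine ⟨tm m (ty 𝔹 x), hmS x, ?_⟩
      exact h3.symm
    have h3 := hmin (tm m2 '' S) _ (by
      rintro _ ⟨s, hs', rfl⟩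
      exact hSr (hS2 s hs')) h1 h2
    have h4 : (tm m2 '' S).ncard = S.ncard :=
      le_antisymm (Set.ncard_image_le (Set.toFinite _)) h3
    have h5 := (Set.ncard_image_iff (Set.toFinite S)).1 h4
    exact h5 x.2 y.2 hxy

end Pool.Agent.H68.AR
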